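import Pool.Agent.Lib.MP_28303a_al.NT.H61.Asm

/-! # Edges: functors on the boxes with coherent stabilizers -/

set_option autoImplicit false
set_option linter.unusedSectionVars false
set_option linter.unusedVariables false

namespace Pool.Agent.NegK.NT.ER

universe u

open CategoryTheory Limits Opposite
open Pool.Agent.NegK.TW

section

variable {k : Type u} [Ring k] {Γ : Type u} [Group Γ] {B C : Type u} [MulAction Γ B]
  [MulAction Γ C] {P : Pre Γ B} {Q : Pre Γ C}

/-! ### Pulling back -/

/-- The preorder of an invariant subset. -/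
def sub (P : Pre Γ B) (W : SubMulAction Γ B) : Pre Γ W where
  le x y := P.le x.1 y.1
  refl x := P.refl x.1
  trans h h' := P.trans h h'
  smul g _ _ h := P.smul g h

/-- An equivariant monotone map gives a functor on boxes. -/
def bxF (m : Loc.Mono Q P) : Bx Q ⥤ Bx P where
  obj U := Bx.of (m.φ U.pt)
  map {U V} f := Bx.mk' (Bx.el f) (by
    have h := m.le (Bx.le_el f)
    rwa [m.smul] at h)
  map_id U := Bx.hom_ext rfl
  map_comp f g := Bx.hom_ext rfl

/-- Composition with the functor on boxes. -/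
abbrev pb (k : Type u) [Ring k] (m : Loc.Mono Q P) : Fn k P ⥤ Fn k Q :=
  (Functor.whiskeringLeft _ _ _).obj (bxF m).op

/-- The inclusion of an invariant subset. -/
def inc (P : Pre Γ B) (W : SubMulAction Γ B) : Loc.Mono (sub P W) P where
  φ x := x.1
  smul _ _ := rfl
  le h := h

/-! ### Extension by zero -/

/-- Upwards closed. -/
def Up (P : Pre Γ B) (W : SubMulAction Γ B) : Prop := ∀ x y : B, P.le x y → x ∈ W → y ∈ W

theorem up_el {W : SubMulAction Γ B} (hW : Up P W) {U V : Bx P} (f : U ⟶ V) (h : U.pt ∈ W) :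
    V.pt ∈ W := by
  have h1 : Bx.el f • V.pt ∈ W := hW _ _ (Bx.le_el f) h
  have h2 := W.smul_mem (Bx.el f)⁻¹ h1
  rwa [inv_smul_smul] at h2

/-- Extension by zero. -/
noncomputable def zzObj {W : SubMulAction Γ B} (hW : Up P W) (N : Fn k (sub P W)) : Fn k P where
  obj U := ModuleCat.of k ((h : PLift (U.unop.pt ∈ W)) →
    N.obj (op (Bx.of ⟨U.unop.pt, h.down⟩)))
  map {U V} f := ModuleCat.ofHom
    { toFun := fun x h => (N.map (Quiver.Hom.op (X := (Bx.of ⟨V.unop.pt, h.down⟩ : Bx (sub P W)))
          (Y := Bx.of ⟨U.unop.pt, up_el hW f.unop h.down⟩)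
          (Bx.mk' (Bx.el f.unop) (Bx.le_el f.unop)))).hom (x ⟨up_el hW f.unop h.down⟩)
      map_add' := fun x y => funext fun h => map_add _ _ _
      map_smul' := fun c x => funext fun h => map_smul _ _ _ }
  map_id U := by
    refine ModuleCat.hom_ext (LinearMap.ext fun x => funext fun h => ?_)
    exact congrArg (fun w => ModuleCat.Hom.hom w (x h)) (N.map_id _)
  map_comp {U V X} f g := by
    refine ModuleCat.hom_ext (LinearMap.ext fun x => funext fun h => ?_)
    exact congrArg (fun w => ModuleCat.Hom.hom w (x ⟨up_el hW f.unop (up_el hW g.unop h.down)⟩))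
      (N.map_comp (Quiver.Hom.op (X := (Bx.of ⟨V.unop.pt, up_el hW g.unop h.down⟩ : Bx (sub P W)))
          (Y := Bx.of ⟨U.unop.pt, up_el hW f.unop (up_el hW g.unop h.down)⟩)
          (Bx.mk' (Bx.el f.unop) (Bx.le_el f.unop)))
        (Quiver.Hom.op (X := (Bx.of ⟨X.unop.pt, h.down⟩ : Bx (sub P W)))
          (Y := Bx.of ⟨V.unop.pt, up_el hW g.unop h.down⟩)
          (Bx.mk' (Bx.el g.unop) (Bx.le_el g.unop))))

/-- Extension by zero. -/
noncomputable def zz {W : SubMulAction Γ B} (hW : Up P W) : Fn k (sub P W) ⥤ Fn k P where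
  obj N := zzObj hW N
  map {N N'} f :=
    { app := fun U => ModuleCat.ofHom
        { toFun := fun x h => (f.app _).hom (x h)
          map_add' := fun x y => funext fun h => map_add _ _ _
          map_smul' := fun c x => funext fun h => map_smul _ _ _ }
      naturality := fun U V g => by
        refine ModuleCat.hom_ext (LinearMap.ext fun x => funext fun h => ?_)
        exact congrArg (fun w => ModuleCat.Hom.hom w (x ⟨up_el hW g.unop h.down⟩))
          (f.naturality (Quiver.Hom.op (X := (Bx.of ⟨V.unop.pt, h.down⟩ : Bx (sub P W)))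
            (Y := Bx.of ⟨U.unop.pt, up_el hW g.unop h.down⟩)
            (Bx.mk' (Bx.el g.unop) (Bx.le_el g.unop)))) }
  map_id N := rfl
  map_comp f g := rfl

/-- The natural map from a functor to the extension by zero of its restriction. -/
noncomputable def un {W : SubMulAction Γ B} (hW : Up P W) (M : Fn k P) :
    M ⟶ (zz hW).obj ((pb k (inc P W)).obj M) where
  app U := ModuleCat.ofHom
    { toFun := fun x h => x
      map_add' := fun x y => rfl
      map_smul' := fun c x => rfl }
  naturality U V g := by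
    refine ModuleCat.hom_ext (LinearMap.ext fun x => funext fun h => ?_)
    rfl

/-- The part of a functor outside `W`. -/
noncomputable def vp {W : SubMulAction Γ B} (hW : Up P W) (M : Fn k P) : Fn k P where
  obj U := ModuleCat.of k
    ({ carrier := {x : M.obj U | U.unop.pt ∈ W → x = 0}
       zero_mem' := fun _ => rfl
       add_mem' := fun {x y} hx hy h => by
        show x + y = 0
        rw [hx h, hy h, add_zero]
       smul_mem' := fun c x hx h => by
        show c • x = 0
        rw [hx h, smul_zero] } : Submodule k (M.obj U))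
  map {U V} f := ModuleCat.ofHom
    { toFun := fun x => ⟨(M.map f).hom x.1, fun h => by
        rw [x.2 (up_el hW f.unop h), map_zero]⟩
      map_add' := fun x y => Subtype.ext (map_add _ _ _)
      map_smul' := fun c x => Subtype.ext (map_smul _ _ _) }
  map_id U := by
    refine ModuleCat.hom_ext (LinearMap.ext fun x => Subtype.ext ?_)
    exact congrArg (fun w => ModuleCat.Hom.hom w x.1) (M.map_id _)
  map_comp f g := by
    refine ModuleCat.hom_ext (LinearMap.ext fun x => Subtype.ext ?_)
    exact congrArg (fun w => ModuleCat.Hom.hom w x.1) (M.map_comp f g)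

/-- The inclusion. -/
noncomputable def vi {W : SubMulAction Γ B} (hW : Up P W) (M : Fn k P) : vp hW M ⟶ M where
  app U := ModuleCat.ofHom (Submodule.subtype _)
  naturality U V f := rfl

/-! ### Direct images along discrete fibrations -/

/-- Discrete fibrations. -/
structure Dfib (Q : Pre Γ C) (P : Pre Γ B) extends Loc.Mono Q P where
  lf : B → C → C
  lf_le : ∀ {U c}, P.le U (φ c) → Q.le (lf U c) c
  φ_lf : ∀ {U c}, P.le U (φ c) → φ (lf U c) = U
  uniq : ∀ {c' c}, Q.le c' c → c' = lf (φ c') c

/-- The index of the direct image. -/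
abbrev Fb (q : Dfib Q P) (U : B) : Type u := {c : C // q.φ c = U}

theorem Dfib.le_of {q : Dfib Q P} {U V : Bx P} (f : U ⟶ V) (c : Fb q V.pt) :
    P.le U.pt (q.φ (Bx.el f • c.1)) := by
  rw [q.smul, c.2]
  exact Bx.le_el f

/-- The lift of an element of the fibre. -/
def Dfib.tr {q : Dfib Q P} {U V : Bx P} (f : U ⟶ V) (c : Fb q V.pt) : Fb q U.pt :=
  ⟨q.lf U.pt (Bx.el f • c.1), q.φ_lf (q.le_of f c)⟩

/-- The morphism from the lift. -/
def Dfib.hm {q : Dfib Q P} {U V : Bx P} (f : U ⟶ V) (c : Fb q V.pt) :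
    (Bx.of (q.tr f c).1 : Bx Q) ⟶ Bx.of c.1 := Bx.mk' (Bx.el f) (q.lf_le (q.le_of f c))

theorem Dfib.eq_tr {q : Dfib Q P} {U V : Bx P} (f : U ⟶ V) (c : Fb q V.pt) (c' : Fb q U.pt)
    (h : Q.le c'.1 (Bx.el f • c.1)) : c' = q.tr f c := Subtype.ext (by
  have h1 := q.uniq h
  rw [c'.2] at h1
  exact h1)

theorem Dfib.tr_id {q : Dfib Q P} {U : Bx P} (c : Fb q U.pt) : q.tr (𝟙 U) c = c :=
  (q.eq_tr (𝟙 U) c c (by
    rw [Bx.el_id, one_smul]
    exact Q.refl _)).symm

theorem Dfib.tr_comp {q : Dfib Q P} {U V X : Bx P} (f : U ⟶ V) (g : V ⟶ X) (c : Fb q X.pt) :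
    q.tr (f ≫ g) c = q.tr f (q.tr g c) :=
  (q.eq_tr (f ≫ g) c _ (by
    rw [Bx.el_comp, mul_smul]
    exact Q.trans (q.lf_le (q.le_of f (q.tr g c))) (Q.smul _ (q.lf_le (q.le_of g c))))).symm

open Classical in
/-- The element `x` of the summand `c`. -/
noncomputable abbrev yl (q : Dfib Q P) (N : Fn k Q) {U : B} (c : Fb q U) :
    N.obj (op (Bx.of c.1)) →ₗ[k] DirectSum (Fb q U) fun c => N.obj (op (Bx.of c.1)) :=
  DirectSum.lof k (Fb q U) (fun c => N.obj (op (Bx.of c.1))) c

theorem yl_eq (q : Dfib Q P) (N : Fn k Q) {U : B} {c c' : Fb q U} (h : c = c') {d : Bx Q}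
    (a : (Bx.of c.1 : Bx Q) ⟶ d) (b : (Bx.of c'.1 : Bx Q) ⟶ d) (hab : Bx.el a = Bx.el b)
    (x : N.obj (op d)) : yl q N c ((N.map a.op).hom x) = yl q N c' ((N.map b.op).hom x) := by
  subst h
  obtain rfl : a = b := Bx.hom_ext hab
  rfl

open Classical in
/-- The maps of the direct image. -/
noncomputable def ym (q : Dfib Q P) (N : Fn k Q) {U V : Bx P} (f : U ⟶ V) :
    (DirectSum (Fb q V.pt) fun c => N.obj (op (Bx.of c.1))) →ₗ[k]
      DirectSum (Fb q U.pt) fun c => N.obj (op (Bx.of c.1)) :=
  DirectSum.toModule k (Fb q V.pt) _ fun c => yl q N (q.tr f c) ∘ₗ (N.map (q.hm f c).op).hom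

theorem ym_yl (q : Dfib Q P) (N : Fn k Q) {U V : Bx P} (f : U ⟶ V) (c : Fb q V.pt)
    (x : N.obj (op (Bx.of c.1))) :
    ym q N f (yl q N c x) = yl q N (q.tr f c) ((N.map (q.hm f c).op).hom x) := by
  classical
  rw [ym]
  erw [DirectSum.toModule_lof]
  rfl

theorem y_ext (q : Dfib Q P) (N : Fn k Q) {U : B} {Y : Type u} [AddCommGroup Y] [Module k Y]
    {f g : (DirectSum (Fb q U) fun c => N.obj (op (Bx.of c.1))) →ₗ[k] Y}
    (h : ∀ c x, f (yl q N c x) = g (yl q N c x)) : f = g := by
  classical
  refine DirectSum.linearMap_ext k fun c => LinearMap.ext fun x => h c x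

/-- The direct image. -/
noncomputable def yyObj (q : Dfib Q P) (N : Fn k Q) : Fn k P where
  obj U := ModuleCat.of k (DirectSum (Fb q U.unop.pt) fun c => N.obj (op (Bx.of c.1)))
  map {U V} f := ModuleCat.ofHom (ym q N f.unop)
  map_id U := by
    refine ModuleCat.hom_ext (y_ext q N fun c x => ?_)
    refine (ym_yl q N (𝟙 U.unop) c x).trans ?_
    refine (yl_eq q N (Dfib.tr_id c) (q.hm (𝟙 U.unop) c) (𝟙 _) rfl x).trans ?_
    rw [op_id, N.map_id]
    rfl
  map_comp {U V X} f g := by
    refine ModuleCat.hom_ext (y_ext q N fun c x => ?_)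
    refine (ym_yl q N (g.unop ≫ f.unop) c x).trans ?_
    refine Eq.trans ?_ ((congrArg (ym q N g.unop) (ym_yl q N f.unop c x)).trans
      (ym_yl q N g.unop _ _)).symm
    refine (yl_eq q N (Dfib.tr_comp g.unop f.unop c) (q.hm (g.unop ≫ f.unop) c)
      (q.hm g.unop (q.tr f.unop c) ≫ q.hm f.unop c) rfl x).trans ?_
    rw [op_comp, N.map_comp]
    rfl

/-- The direct image of a map. -/
noncomputable def yL (q : Dfib Q P) {N N' : Fn k Q} (f : N ⟶ N') (U : B) :
    (DirectSum (Fb q U) fun c => N.obj (op (Bx.of c.1))) →ₗ[k]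
      DirectSum (Fb q U) fun c => N'.obj (op (Bx.of c.1)) :=
  DirectSum.lmap fun c => (f.app (op (Bx.of c.1))).hom

theorem yL_yl (q : Dfib Q P) {N N' : Fn k Q} (f : N ⟶ N') {U : B} (c : Fb q U)
    (x : N.obj (op (Bx.of c.1))) :
    yL q f U (yl q N c x) = yl q N' c ((f.app (op (Bx.of c.1))).hom x) := by
  classical
  exact DirectSum.lmap_lof _ _ _

/-- The direct image. -/
noncomputable def yy (q : Dfib Q P) : Fn k Q ⥤ Fn k P where
  obj N := yyObj q N
  map {N N'} f :=
    { app := fun U => ModuleCat.ofHom (yL q f U.unop.pt)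
      naturality := fun U V g => by
        refine ModuleCat.hom_ext (y_ext q N fun c x => ?_)
        show yL q f V.unop.pt (ym q N g.unop (yl q N c x)) =
          ym q N' g.unop (yL q f U.unop.pt (yl q N c x))
        rw [ym_yl, yL_yl, yL_yl, ym_yl]
        exact congrArg (fun w => yl q N' (q.tr g.unop c) (ModuleCat.Hom.hom w x))
          (f.naturality (q.hm g.unop c).op) }
  map_id N := by
    refine NatTrans.ext (funext fun U => ModuleCat.hom_ext (y_ext q N fun c x => ?_))
    exact yL_yl q (𝟙 N) c x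
  map_comp {N N' N''} f g := by
    refine NatTrans.ext (funext fun U => ModuleCat.hom_ext (y_ext q N fun c x => ?_))
    show yL q (f ≫ g) U.unop.pt (yl q N c x) = yL q g U.unop.pt (yL q f U.unop.pt (yl q N c x))
    rw [yL_yl, yL_yl, yL_yl]
    rfl

end

/-! ### The marked tree -/

section

variable {Γ : Type u} [Group Γ] {T : Sys Γ} (D : T.Tr) (j : Fin T.m) [MulAction Γ (D.V j)]
  [MulAction Γ (D.E j)]

/-- The conditions on the labels: the vertices and the edges of the marked tree `j`. -/
structure Mk : Prop where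
  vt_smul : ∀ (g : Γ) (v : D.V j), D.vt j (g • v) = g • D.vt j v
  ed_smul : ∀ (g : Γ) (e : D.E j), D.ed j (g • e) = g • D.ed j e
  s_smul : ∀ (g : Γ) (e : D.E j), D.s j (g • e) = g • D.s j e
  t_smul : ∀ (g : Γ) (e : D.E j), D.t j (g • e) = g • D.t j e
  vt_inj : Function.Injective (D.vt j)
  ed_inj : Function.Injective (D.ed j)
  st : ∀ e : D.E j, D.s j e ≠ D.t j e
  vt_min : ∀ (v : D.V j) x, x ≤ D.vt j v → x = D.vt j v
  vt_ed : ∀ (v : D.V j) (e : D.E j), D.vt j v ≤ D.ed j e → v = D.s j e ∨ v = D.t j e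
  ed_le : ∀ e e' : D.E j, D.ed j e ≤ D.ed j e' → e = e'
  ed_vt : ∀ (e : D.E j) (v : D.V j), D.ed j e ≠ D.vt j v
  fin : ∀ (i : Fin T.m) (x : T.B i), {y | y ≤ x}.Finite

variable {D j} (K : Mk D j)

/-- The boxes with a label different from the vertices in the direction `j`. -/
def nv : SubMulAction Γ T.Box where
  carrier := {U | ∀ v : D.V j, U j ≠ D.vt j v}
  smul_mem' g U h v hv := h (g⁻¹ • v) (by
    rw [K.vt_smul, ← hv]
    exact (inv_smul_smul g (U j)).symm)

theorem up_nv : Up (T.P Finset.univ) (nv K) := by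
  intro x y hxy hx v hv
  refine hx v ?_
  have h := hxy j (Finset.mem_univ j)
  rw [hv] at h
  exact K.vt_min v _ h

variable (D j) in
/-- The flags: an edge with an end and a box with this edge. -/
def Fl : Type u := {p : (D.E j × ULift.{u} Bool) × T.Box // p.2 j = D.ed j p.1.1}

/-- The action on the flags. -/
@[reducible] def flAct : MulAction Γ (Fl D j) where
  smul g p := ⟨((g • p.1.1.1, p.1.1.2), g • p.1.2), by
    show g • p.1.2 j = _
    rw [p.2, K.ed_smul]⟩
  one_smul p := Subtype.ext (Prod.ext (Prod.ext (one_smul Γ _) rfl) (one_smul Γ _))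
  mul_smul g h p := Subtype.ext (Prod.ext (Prod.ext (mul_smul g h _) rfl) (mul_smul g h _))

/-- The preorder of the flags. -/
def flP : letI := flAct K; Pre Γ (Fl D j) :=
  letI := flAct K
  { le := fun p q => p.1.1 = q.1.1 ∧ (T.P Finset.univ).le p.1.2 q.1.2
    refl := fun p => ⟨rfl, (T.P Finset.univ).refl _⟩
    trans := fun h h' => ⟨h.1.trans h'.1, (T.P Finset.univ).trans h.2 h'.2⟩
    smul := fun g p q h => ⟨Prod.ext (congrArg (fun z => g • z.1) h.1)
      (congrArg (fun z => z.2) h.1), (T.P Finset.univ).smul g h.2⟩ }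

variable (D j) in
/-- The end of a flag. -/
def fe (p : Fl D j) : D.V j := if p.1.1.2.down then D.s j p.1.1.1 else D.t j p.1.1.1

theorem fe_eq {p q : Fl D j} (h : p.1.1 = q.1.1) : fe D j p = fe D j q := by
  rw [fe, fe, h]

include K in
theorem fe_smul (g : Γ) (p : Fl D j) :
    letI := flAct K; fe D j (g • p) = g • fe D j p := by
  let := flAct K
  have h1 : (g • p).1.1 = (g • p.1.1.1, p.1.1.2) := rfl
  rw [fe, fe, h1]
  dsimp only
  split_ifs
  · exact K.s_smul g _
  · exact K.t_smul g _

/-- The vertex box of a flag. -/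
noncomputable def flq : letI := flAct K; Dfib (flP K) (T.P Finset.univ) :=
  letI := flAct K
  { φ := fun p => T.up j p.1.2 (D.vt j (fe D j p))
    smul := fun g p => by
      funext i
      have h1 : (g • p).1.2 = g • p.1.2 := rfl
      rw [fe_smul K, h1]
      show Function.update (g • p.1.2) j _ i = g • Function.update p.1.2 j _ i
      by_cases hi : i = j
      · subst hi
        rw [Function.update_self, Function.update_self]
        exact K.vt_smul g _
      · rw [Function.update_of_ne hi, Function.update_of_ne hi]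
        rfl
    le := fun {p q} h i _ => by
      show Function.update p.1.2 j _ i ≤ Function.update q.1.2 j _ i
      by_cases hi : i = j
      · subst hi
        rw [Function.update_self, Function.update_self, fe_eq h.1]
      · rw [Function.update_of_ne hi, Function.update_of_ne hi]
        exact h.2 i (Finset.mem_univ i)
    lf := fun U p => ⟨(p.1.1, T.up j U (D.ed j p.1.1.1)), Function.update_self _ _ _⟩
    lf_le := fun {U p} h => by
      refine ⟨rfl, fun i _ => ?_⟩
      show Function.update U j _ i ≤ p.1.2 i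
      by_cases hi : i = j
      · subst hi
        rw [Function.update_self, p.2]
      · rw [Function.update_of_ne hi]
        have h1 := h i (Finset.mem_univ i)
        rwa [Sys.up, Function.update_of_ne hi] at h1
    φ_lf := fun {U p} h => by
      funext i
      show Function.update (Function.update U j _) j _ i = U i
      by_cases hi : i = j
      · subst hi
        rw [Function.update_self]
        have h1 := h i (Finset.mem_univ i)
        rw [Sys.up, Function.update_self] at h1
        exact (K.vt_min _ _ h1).symm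
      · rw [Function.update_of_ne hi, Function.update_of_ne hi]
    uniq := fun {p' p} h => by
      refine Subtype.ext (Prod.ext h.1 (funext fun i => ?_))
      show p'.1.2 i = Function.update (Function.update p'.1.2 j _) j _ i
      by_cases hi : i = j
      · subst hi
        rw [Function.update_self, p'.2, h.1]
      · rw [Function.update_of_ne hi, Function.update_of_ne hi] }

/-- The edge box of a flag. -/
def flr : letI := flAct K; Loc.Mono (flP K) (T.P Finset.univ) :=
  letI := flAct K
  { φ := fun p => p.1.2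
    smul := fun _ _ => rfl
    le := fun h => h.2 }

variable (k : Type u) [Ring k]

/-- The direct image of the restriction of `M` to the edge boxes: the sum of the values at the
edges at a vertex. -/
noncomputable def ye (M : Fn k (T.P Finset.univ)) : Fn k (T.P Finset.univ) :=
  letI := flAct K
  (yy (flq K)).obj ((pb k (flr K)).obj M)

end

/-! ### Statements of the modules -/

/-- The functor `M` has finite support and finitely presented values at the boxes in `W`. -/
def AA {k : Type u} [Ring k] {Γ : Type u} [Group Γ] {B : Type u} [MulAction Γ B] {P : Pre Γ B}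
    (W : SubMulAction Γ B) (M : Fn k P) : Prop :=
  H78.FPV (k := k) (B := Bx (sub P W)) ((pb k (inc P W)).obj M)

/-- RR. Functors with a finite resolution are closed under retracts. -/
def RrStatement : Prop :=
  ∀ (k : Type u) [Ring k] (Γ : Type u) [Group Γ] (B : Type u) [MulAction Γ B] (P : Pre Γ B)
    (M N : Fn k P), Nonempty (Retract M N) → Rsl N → Rsl M

/-- ZS. `0 → vp M → M → zz (M | W) → 0` is exact, and `zz` is exact. -/
def ZsStatement : Prop :=
  ∀ (k : Type u) [Ring k] (Γ : Type u) [Group Γ] (B : Type u) [MulAction Γ B] (P : Pre Γ B)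
    (W : SubMulAction Γ B) (hW : Up P W),
    (∀ M : Fn k P, ∃ w, (ShortComplex.mk (vi hW M) (un hW M) w).ShortExact) ∧
    ∀ S : ShortComplex (Fn k (sub P W)), S.ShortExact → ∃ w,
      (ShortComplex.mk ((zz (k := k) hW).map S.f) ((zz hW).map S.g) w).ShortExact

/-- YS. The direct image along a discrete fibration is exact and maps representable functors to
representable functors. -/
def YsStatement : Prop :=
  ∀ (k : Type u) [Ring k] (Γ : Type u) [Group Γ] (B C : Type u) [MulAction Γ B] [MulAction Γ C]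
    (P : Pre Γ B) (Q : Pre Γ C) (q : Dfib Q P),
    (∀ S : ShortComplex (Fn k Q), S.ShortExact → ∃ w,
      (ShortComplex.mk ((yy (k := k) q).map S.f) ((yy q).map S.g) w).ShortExact) ∧
    ∀ (n : ℕ) (c : Bx Q), Nonempty ((yy q).obj (H78.PS k (fun _ : Fin n => c)) ≅
      H78.PS k (fun _ : Fin n => (Bx.of (q.φ c.pt) : Bx P)))

/-- VE. The part of `ev A` at the vertex boxes is `ev` of a finite located module. -/
def VeStatement : Prop :=
  ∀ (Γ : Type u) [Group Γ] (T : Sys Γ) (D : T.Tr) (j : Fin T.m) [MulAction Γ (D.V j)]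
    [MulAction Γ (D.E j)] (K : Mk D j) (k : Type u) [Ring k] (A : Loc k (T.P Finset.univ)),
    Finite A.ι → ∃ A' : Loc k (T.P Finset.univ), Finite A'.ι ∧
      Nonempty (vp (up_nv K) (Loc.ev.obj A) ≅ Loc.ev.obj A')

/-- TR. If `M` is `T_j`-acyclic then its part at the vertex boxes is a retract of the sums of the
values at the edges. -/
def TrStatement : Prop :=
  ∀ (Γ : Type u) [Group Γ] (T : Sys Γ) (D : T.Tr) (j : Fin T.m) [MulAction Γ (D.V j)]
    [MulAction Γ (D.E j)] (K : Mk D j) (k : Type u) [Ring k] (M : Fn k (T.P Finset.univ)),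
    D.Tac M j → Nonempty (Retract (vp (up_nv K) M) (ye K k M))

/-- ZR (uses GOOD, RR, ZS, VE and `Good.all`). Extensions by zero have finite resolutions. -/
def ZrStatement : Prop :=
  ∀ (Γ : Type u) [Group Γ] (T : Sys Γ) (D : T.Tr) (j : Fin T.m) [MulAction Γ (D.V j)]
    [MulAction Γ (D.E j)] (K : Mk D j),
    (∀ U ∈ nv K, InRC (MulAction.stabilizer Γ U)) →
    ∀ (k : Type u) [Ring k], RegularRing k → ∀ N : Fn k (sub (T.P Finset.univ) (nv K)),
      H78.FPV (k := k) (B := Bx (sub (T.P Finset.univ) (nv K))) N → Rsl ((zz (up_nv K)).obj N)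

/-- YR (uses GOOD, YS and `Good.all`). The sums of the values at the edges have finite
resolutions. -/
def YrStatement : Prop :=
  ∀ (Γ : Type u) [Group Γ] (T : Sys Γ) (D : T.Tr) (j : Fin T.m) [MulAction Γ (D.V j)]
    [MulAction Γ (D.E j)] (K : Mk D j),
    (∀ U ∈ nv K, InRC (MulAction.stabilizer Γ U)) →
    ∀ (k : Type u) [Ring k], RegularRing k → ∀ M : Fn k (T.P Finset.univ),
      AA (nv K) M → Rsl (ye K k M)

/-- RES (uses RR, ZS, TR, ZR, YR, GOOD). `T_j`-acyclic functors with finitely presented values at the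
boxes in `nv` have finite resolutions. -/
def ResStatement : Prop :=
  ∀ (Γ : Type u) [Group Γ] (T : Sys Γ) (D : T.Tr) (j : Fin T.m) [MulAction Γ (D.V j)]
    [MulAction Γ (D.E j)] (K : Mk D j),
    (∀ U ∈ nv K, InRC (MulAction.stabilizer Γ U)) →
    ∀ (k : Type u) [Ring k], RegularRing k → ∀ M : Fn k (T.P Finset.univ),
      AA (nv K) M → D.Tac M j → Rsl M

/-- The closure properties of `AA`. -/
structure RegCls0 {k : Type u} [Ring k] {Γ : Type u} [Group Γ] {B : Type u} [MulAction Γ B]
    {P : Pre Γ B} (AA : Fn k P → Prop) : Prop where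
  iso : ∀ M N : Fn k P, Nonempty (M ≅ N) → AA M → AA N
  ker : ∀ (M N : Fn k P) (f : M ⟶ N), AA M → AA N → AA (kernel f)
  coker : ∀ (M N : Fn k P) (f : M ⟶ N), AA M → AA N → AA (cokernel f)
  fin : ∀ A : Loc k P, Finite A.ι → AA (Loc.ev.obj A)

/-- CL. The closure properties of the class of functors with finitely presented values at the
boxes in `nv`. -/
def ClStatement : Prop :=
  ∀ (Γ : Type u) [Group Γ] (T : Sys Γ) (D : T.Tr) (j : Fin T.m) [MulAction Γ (D.V j)]
    [MulAction Γ (D.E j)] (K : Mk D j),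
    (∀ U ∈ nv K, InRC (MulAction.stabilizer Γ U)) →
    ∀ (k : Type u) [Ring k], RegularRing k →
      RegCls0 (fun M : Fn k (T.P Finset.univ) => AA (nv K) M)

/-- BASE (the proof of the old BASE; only `T_j`-acyclic functors are resolved). -/
def BaseStatement : Prop :=
  ∀ (Γ : Type u) [Group Γ] (T : Sys Γ) (D : T.Tr) (j : Fin T.m), T.RET →
    (∀ (k : Type u) [Ring k], RegularRing k → ∃ AA : Fn k (T.P Finset.univ) → Prop,
      RegCls0 AA ∧ ∀ M, AA M → D.Tac M j → Rsl M) →
    ∀ J : Finset (Fin T.m), j ∈ J → T.EXT Finset.univ J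

/-- IND. The induction for the pairs with `j ∈ J`, and the lifts to the one tree `j`. -/
def IndStatement : Prop :=
  ∀ (Γ : Type u) [Group Γ] (T : Sys Γ) (j : Fin T.m), T.STEPB →
    (∀ J : Finset (Fin T.m), j ∈ J → T.EXT Finset.univ J) →
    ∀ (k : Type u) [Ring k], RegularRing k → ∀ X : KK k (T.P ∅), Per X →
      ∃ D : KK k (T.P {j}), Per D ∧
        Nonempty ((T.L k (Finset.empty_subset {j})).obj D ≅ X)

/-- KG (uses KGEN for a system with one tree). `K₀(k[Γ])` is generated by the stabilizers of the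
labels of the tree `j`. -/
def KgStatement : Prop :=
  ∀ (Γ : Type u) [Group Γ] (T : Sys Γ) (j : Fin T.m),
    (∃ sz : T.B j → ℕ, (∀ (g : Γ) x, sz (g • x) = sz x) ∧ ∀ x y, x ≤ y → x ≠ y → sz x < sz y) →
    ∀ (k : Type u) [Ring k], (∀ X : KK k (T.P ∅), Per X →
      ∃ D : KK k (T.P {j}), Per D ∧
        Nonempty ((T.L k (Finset.empty_subset {j})).obj D ≅ X)) →
    ⨆ x : T.B j, img k (MulAction.stabilizer Γ x) = ⊤

/-- SYS. The labels: for `m` trees and a marked tree `j` with an edge there is a system with the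
marked tree `j` such that the stabilizers of the boxes in `nv` are in the intersections of the
stabilizer of an edge of the tree `j` with the stabilizers of vertices of the other trees, and the
stabilizers of the labels of the tree `j` are in the stabilizers of vertices. -/
def SysStatement : Prop :=
  ∀ (Γ : Type u) [Group Γ] (Y : Trees Γ) (j : Fin Y.m), (∃ v w : Y.V j, (Y.G j).Adj v w) →
    ∃ (T : Sys Γ) (hm : T.m = Y.m) (D : T.Tr) (j' : Fin T.m) (aV : MulAction Γ (D.V j'))
      (aE : MulAction Γ (D.E j')) (K : Mk D j'),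
      (∀ U ∈ nv K, ∃ (v : ∀ i, Y.V i) (w : Y.V j), (Y.G j).Adj (v j) w ∧
        MulAction.stabilizer Γ U ≤ Y.st v ⊓ MulAction.stabilizer Γ w) ∧
      (∀ x : T.B j', ∃ v : Y.V j, MulAction.stabilizer Γ x ≤ MulAction.stabilizer Γ v) ∧
      ∃ sz : T.B j' → ℕ, (∀ (g : Γ) x, sz (g • x) = sz x) ∧ ∀ x y, x ≤ y → x ≠ y → sz x < sz y

/-- REL. The relative theorem for `K₀`. -/
def RelStatement : Prop :=
  ∀ (Γ : Type u) [Group Γ] (Y : Trees Γ) (j : Fin Y.m),
    (∀ (v : ∀ i, Y.V i) (w : Y.V j), (Y.G j).Adj (v j) w →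
      InRC (Y.st v ⊓ MulAction.stabilizer Γ w : Subgroup Γ)) →
    ∀ (k : Type u) [Ring k], RegularRing k →
      ⨆ v : Y.V j, img k (MulAction.stabilizer Γ v) = ⊤

end Pool.Agent.NegK.NT.ER
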